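import Mathlib
import Pool.Agent.H507R3.RamAll

open Finset

namespace Pool.Agent.V11181.GF

/-- directed shift adjacency on strictly increasing `k`-tuples in `[n]` -/
def Sh {k n : ℕ} (f g : Fin k → Fin n) : Prop :=
  StrictMono f ∧ StrictMono g ∧ ∀ (i : ℕ) (h : i + 1 < k), g ⟨i, by omega⟩ = f ⟨i + 1, h⟩

/-- walks of length `m` in the symmetrisation of `E` -/
def Wk {α : Type} (E : α → α → Prop) : ℕ → α → α → Prop
  | 0, a, b => a = b
  | m + 1, a, b => ∃ c, (E a c ∨ E c a) ∧ Wk E m c b

theorem Wk.trans {α : Type} {E : α → α → Prop} {m l : ℕ} {a b c : α}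
    (h1 : Wk E m a b) (h2 : Wk E l b c) : Wk E (m + l) a c := by
  induction m generalizing a with
  | zero =>
    have : a = b := h1
    subst this
    rw [Nat.zero_add]
    exact h2
  | succ m ih =>
    obtain ⟨d, hd, h3⟩ := h1
    have : m + 1 + l = (m + l) + 1 := by omega
    rw [this]
    exact ⟨d, hd, ih h3⟩

theorem Wk.single {α : Type} {E : α → α → Prop} {a b : α} (h : E a b ∨ E b a) :
    Wk E 1 a b := ⟨b, h, rfl⟩

theorem Wk.symm {α : Type} {E : α → α → Prop} {m : ℕ} {a b : α} (h : Wk E m a b) :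
    Wk E m b a := by
  induction m generalizing a with
  | zero => exact Eq.symm h
  | succ m ih =>
    obtain ⟨d, hd, h3⟩ := h
    exact (ih h3).trans (Wk.single hd.symm)

theorem Wk.map {α β : Type} {E : α → α → Prop} {F : β → β → Prop} (φ : α → β)
    (hφ : ∀ a b, E a b → F (φ a) (φ b) ∨ F (φ b) (φ a)) {m : ℕ} {a b : α} (h : Wk E m a b) :
    Wk F m (φ a) (φ b) := by
  induction m generalizing a with
  | zero => exact congrArg φ h
  | succ m ih =>
    obtain ⟨d, hd, h3⟩ := h
    refine ⟨φ d, ?_, ih h3⟩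
    rcases hd with hd | hd
    · exact hφ _ _ hd
    · exact (hφ _ _ hd).symm

/-- no odd closed walk: two-colourable -/
theorem two_colour {α : Type} (E : α → α → Prop)
    (h : ∀ m a, m % 2 = 1 → ¬ Wk E m a a) : ∃ c : α → Bool, ∀ a b, E a b → c a ≠ c b := by
  classical
  let s : Setoid α :=
    { r := fun a b => ∃ m, Wk E m a b
      iseqv :=
        { refl := fun a => ⟨0, rfl⟩
          symm := fun ⟨m, hm⟩ => ⟨m, hm.symm⟩
          trans := fun ⟨m, hm⟩ ⟨l, hl⟩ => ⟨m + l, hm.trans hl⟩ } }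
  let root : α → α := fun a => (Quotient.mk s a).out
  have hroot : ∀ a, ∃ m, Wk E m (root a) a := fun a => Quotient.mk_out a
  have hsame : ∀ a b, E a b → root a = root b := by
    intro a b hab
    have : Quotient.mk s a = Quotient.mk s b := Quotient.sound ⟨1, Wk.single (Or.inl hab)⟩
    simp only [root, this]
  refine ⟨fun a => decide (∃ m, m % 2 = 0 ∧ Wk E m (root a) a), ?_⟩
  intro a b hab hcc
  have hcc' : (∃ m, m % 2 = 0 ∧ Wk E m (root a) a) ↔ (∃ m, m % 2 = 0 ∧ Wk E m (root b) b) := by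
    have h1 := hcc
    simp only [decide_eq_decide] at h1
    exact h1
  have hr := hsame a b hab
  obtain ⟨m, hm⟩ := hroot a
  rcases Nat.mod_two_eq_zero_or_one m with hm2 | hm2
  · obtain ⟨l, hl2, hl⟩ := hcc'.mp ⟨m, hm2, hm⟩
    rw [← hr] at hl
    have h3 := (hm.trans (Wk.single (Or.inl hab))).trans hl.symm
    exact h _ _ (by omega) h3
  · have h3 := hm.trans (Wk.single (Or.inl hab))
    rw [hr] at h3
    obtain ⟨l, hl2, hl⟩ := hcc'.mpr ⟨m + 1, by omega, h3⟩
    have h4 := hm.trans hl.symm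
    exact h _ _ (by omega) h4

/-- extension of a tuple to the integers -/
def ext {k n : ℕ} (f : Fin k → Fin n) (i : ℤ) : ℕ :=
  if h : 0 ≤ i ∧ i.toNat < k then (f ⟨i.toNat, h.2⟩).1 else 0

theorem ext_shift {k n : ℕ} {f g : Fin k → Fin n} (h : Sh f g) (j : ℤ) (h1 : 1 ≤ j)
    (h2 : j < k) : ext f j = ext g (j - 1) := by
  unfold ext
  have ha : 0 ≤ j ∧ j.toNat < k := ⟨by omega, by omega⟩
  have hb : 0 ≤ j - 1 ∧ (j - 1).toNat < k := ⟨by omega, by omega⟩
  rw [dif_pos ha, dif_pos hb]
  have h3 := h.2.2 (j - 1).toNat (by omega)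
  rw [h3]
  congr 2
  apply Fin.ext
  simp only
  omega

theorem walk_shift {k n : ℕ} (m : ℕ) (f g : Fin k → Fin n) (h : Wk Sh m f g) :
    ∃ t : ℤ, |t| ≤ m ∧ t % 2 = (m : ℤ) % 2 ∧
      ∀ j : ℤ, m ≤ j → j + m < k → ext g (j - t) = ext f j := by
  induction m generalizing f with
  | zero =>
    refine ⟨0, by simp, by simp, ?_⟩
    intro j _ _
    have : f = g := h
    rw [this, sub_zero]
  | succ m ih =>
    obtain ⟨f1, hd, h3⟩ := h
    obtain ⟨t, ht1, ht2, ht3⟩ := ih f1 h3
    rw [abs_le] at ht1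
    rcases hd with hd | hd
    · refine ⟨t + 1, ?_, ?_, ?_⟩
      · rw [abs_le]
        push_cast
        constructor <;> omega
      · push_cast
        omega
      · intro j hj1 hj2
        push_cast at hj1 hj2
        rw [ext_shift hd j (by omega) (by omega), ← ht3 (j - 1) (by omega) (by omega)]
        congr 1
        ring
    · refine ⟨t - 1, ?_, ?_, ?_⟩
      · rw [abs_le]
        push_cast
        constructor <;> omega
      · push_cast
        omega
      · intro j hj1 hj2
        push_cast at hj1 hj2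
        have h4 := ext_shift hd (j + 1) (by omega) (by omega)
        rw [show j + 1 - 1 = j by ring] at h4
        rw [← h4, ← ht3 (j + 1) (by omega) (by omega)]
        congr 1
        ring

/-- shift graphs have no short odd closed walks -/
theorem no_odd {k n : ℕ} (m : ℕ) (hodd : m % 2 = 1) (hk : 2 * m < k) (f : Fin k → Fin n) :
    ¬ Wk Sh m f f := by
  intro h
  have hmono : StrictMono f := by
    cases m with
    | zero => simp at hodd
    | succ m =>
      obtain ⟨c, hc, _⟩ := h
      rcases hc with hc | hc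
      · exact hc.1
      · exact hc.2.1
  obtain ⟨t, ht1, ht2, ht3⟩ := walk_shift m f f h
  have h4 := ht3 m le_rfl (by omega)
  rw [abs_le] at ht1
  unfold ext at h4
  have ha : 0 ≤ (m : ℤ) - t ∧ ((m : ℤ) - t).toNat < k := ⟨by omega, by omega⟩
  have hb : 0 ≤ (m : ℤ) ∧ (m : ℤ).toNat < k := ⟨by omega, by omega⟩
  rw [dif_pos ha, dif_pos hb] at h4
  have h5 := hmono.injective (Fin.ext h4)
  have h6 := congrArg Fin.val h5
  simp only at h6
  omega

/-- shift graphs have large chromatic number -/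
theorem shift_ramsey (C : Type) [Finite C] [Nonempty C] (k : ℕ) :
    ∃ n, ∀ c : (Fin k → Fin n) → C, ∃ f g, Sh f g ∧ c f = c g := by
  classical
  haveI : Fintype C := Fintype.ofFinite C
  obtain ⟨N, hN⟩ := Pool.Agent.H507R3.RamAll.ramsey_finset C k (k + 1)
  refine ⟨N, fun c => ?_⟩
  let c' : Finset ℕ → C := fun A =>
    if h : A.card = k ∧ ∀ x ∈ A, x < N then
      c (fun i => ⟨A.orderEmbOfFin h.1 i, h.2 _ (A.orderEmbOfFin_mem h.1 i)⟩)
    else Classical.arbitrary C
  obtain ⟨T, hT, hTr, col, hcol⟩ := hN (range N) c' (by simp)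
  have hlt : ∀ i, T.orderEmbOfFin hTr i < N := fun i =>
    mem_range.mp (hT (T.orderEmbOfFin_mem hTr i))
  have key : ∀ e : Fin k → Fin (k + 1), StrictMono e →
      c (fun i => ⟨T.orderEmbOfFin hTr (e i), hlt _⟩) = col := by
    intro e he
    let A : Finset ℕ := univ.image (fun i : Fin k => T.orderEmbOfFin hTr (e i))
    have hAinj : Function.Injective (fun i : Fin k => T.orderEmbOfFin hTr (e i)) :=
      (T.orderEmbOfFin hTr).injective.comp he.injective
    have hA : A.card = k ∧ ∀ x ∈ A, x < N := by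
      refine ⟨?_, ?_⟩
      · rw [Finset.card_image_of_injective _ hAinj]
        simp
      · intro x hx
        obtain ⟨i, _, rfl⟩ := mem_image.mp hx
        exact hlt _
    have hAT : A ⊆ T := by
      intro x hx
      obtain ⟨i, _, rfl⟩ := mem_image.mp hx
      exact T.orderEmbOfFin_mem hTr _
    have h1 := hcol A hAT hA.1
    rw [← h1]
    simp only [c']
    rw [dif_pos hA]
    congr 1
    have h2 := Finset.orderEmbOfFin_unique hA.1
      (f := fun i : Fin k => T.orderEmbOfFin hTr (e i))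
      (fun i => mem_image_of_mem _ (mem_univ i))
      (fun i j hij => (T.orderEmbOfFin hTr).strictMono (he hij))
    ext i
    exact congrFun h2 i
  refine ⟨fun i => ⟨T.orderEmbOfFin hTr i.castSucc, hlt _⟩,
    fun i => ⟨T.orderEmbOfFin hTr i.succ, hlt _⟩, ⟨?_, ?_, ?_⟩, ?_⟩
  · intro i j hij
    exact (T.orderEmbOfFin hTr).strictMono (Fin.castSucc_lt_castSucc_iff.mpr hij)
  · intro i j hij
    exact (T.orderEmbOfFin hTr).strictMono (Fin.succ_lt_succ_iff.mpr hij)
  · intro i hi
    rfl
  · rw [key Fin.castSucc Fin.strictMono_castSucc, key Fin.succ Fin.strictMono_succ]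

end Pool.Agent.V11181.GF
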