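import Mathlib
import Pool.Agent.V11181.GF.Shift

open Finset

namespace Pool.Agent.V11181.GF

/-- homomorphisms of digraphs -/
def Hom {α β : Type} (E : α → α → Prop) (F : β → β → Prop) : Prop :=
  ∃ h : α → β, ∀ a b, E a b → F (h a) (h b)

/-- the middle digraph -/
def Mid (k n : ℕ) (E1 E2 : ℕ → ℕ → Prop) :
    ℕ ⊕ (ℕ × (Fin k → Fin n)) → ℕ ⊕ (ℕ × (Fin k → Fin n)) → Prop
  | Sum.inl a, Sum.inl b => E1 a b
  | Sum.inr (v, f), Sum.inr (w, g) => E2 v w ∧ (Sh f g ∨ Sh g f)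
  | _, _ => False

theorem density_sum (E1 E2 : ℕ → ℕ → Prop) (V1 V2 : Finset ℕ)
    (hV1 : ∀ a b, E1 a b → a ∈ V1 ∧ b ∈ V1) (hV2 : ∀ a b, E2 a b → a ∈ V2 ∧ b ∈ V2)
    (p q : ℕ) (hpq : E1 p q) (hqp : E1 q p) (h12 : Hom E1 E2) (h21 : ¬ Hom E2 E1) :
    ∃ k n, Hom E1 (Mid k n E1 E2) ∧ ¬ Hom (Mid k n E1 E2) E1 ∧ Hom (Mid k n E1 E2) E2 ∧
      ¬ Hom E2 (Mid k n E1 E2) := by
  classical
  -- the restriction of `E2` to a set
  let R : Finset ℕ → ℕ → ℕ → Prop := fun S a b => a ∈ S ∧ b ∈ S ∧ E2 a b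
  have hL : ∃ L : ℕ, ∀ S ⊆ V2, (∀ m a, m % 2 = 1 → m ≤ L → ¬ Wk (R S) m a a) →
      ∃ c : ℕ → Bool, ∀ a b, R S a b → c a ≠ c b := by
    let l : Finset ℕ → ℕ := fun S =>
      if h : ∃ m, m % 2 = 1 ∧ ∃ a, Wk (R S) m a a then h.choose else 0
    refine ⟨V2.powerset.sup l, fun S hS hno => ?_⟩
    apply two_colour
    intro m a hm hW
    have hex : ∃ m, m % 2 = 1 ∧ ∃ a, Wk (R S) m a a := ⟨m, hm, a, hW⟩
    obtain ⟨h1, b, h2⟩ := hex.choose_spec
    have h3 : l S = hex.choose := dif_pos hex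
    have h4 : l S ≤ V2.powerset.sup l := Finset.le_sup (mem_powerset.mpr hS)
    rw [h3] at h4
    exact hno _ b h1 h4 h2
  obtain ⟨L, hL⟩ := hL
  obtain ⟨n, hn⟩ := shift_ramsey ({x // x ∈ V2} → Option {x // x ∈ V1}) (2 * L + 1)
  refine ⟨2 * L + 1, n, ⟨Sum.inl, fun a b h => h⟩, ?_, ?_, ?_⟩
  · rintro ⟨h, hh⟩
    let col : (Fin (2 * L + 1) → Fin n) → ({x // x ∈ V2} → Option {x // x ∈ V1}) :=
      fun f v => if hv : h (Sum.inr (v.1, f)) ∈ V1 then some ⟨_, hv⟩ else none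
    obtain ⟨f, g, hfg, hcol⟩ := hn col
    apply h21
    refine ⟨fun v => h (Sum.inr (v, f)), fun v w hvw => ?_⟩
    have hw : w ∈ V2 := (hV2 v w hvw).2
    have h1 : E1 (h (Sum.inr (v, f))) (h (Sum.inr (w, g))) :=
      hh _ _ (show E2 v w ∧ (Sh f g ∨ Sh g f) from ⟨hvw, Or.inl hfg⟩)
    have h2 := (hV1 _ _ h1).2
    have h3 : h (Sum.inr (w, f)) = h (Sum.inr (w, g)) := by
      have h4 := congrFun hcol ⟨w, hw⟩
      simp only [col] at h4
      rw [dif_pos h2] at h4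
      by_cases h5 : h (Sum.inr (w, f)) ∈ V1
      · rw [dif_pos h5] at h4
        exact congrArg Subtype.val (Option.some.inj h4)
      · rw [dif_neg h5] at h4
        cases h4
    change E1 (h (Sum.inr (v, f))) (h (Sum.inr (w, f)))
    rw [h3]
    exact h1
  · obtain ⟨φ, hφ⟩ := h12
    refine ⟨fun x => match x with
      | Sum.inl a => φ a
      | Sum.inr (v, _) => v, ?_⟩
    rintro (a | ⟨v, f⟩) (b | ⟨w, g⟩) h
    · exact hφ _ _ h
    · exact absurd h (by simp [Mid])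
    · exact absurd h (by simp [Mid])
    · exact h.1
  · rintro ⟨φ, hφ⟩
    let S : Finset ℕ := V2.filter (fun v => ∃ x, φ v = Sum.inr x)
    obtain ⟨c, hc⟩ := hL S (filter_subset _ _) (by
      intro m a hm hmL hW
      -- map the walk to the shift graph
      have hne : ∃ g : Fin (2 * L + 1) → Fin n, True := by
        cases m with
        | zero => simp at hm
        | succ m =>
          obtain ⟨b, hb, _⟩ := hW
          have haS : a ∈ S := by
            rcases hb with hb | hb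
            · exact hb.1
            · exact hb.2.1
          obtain ⟨x, _⟩ := (mem_filter.mp haS).2
          exact ⟨x.2, trivial⟩
      obtain ⟨g0, _⟩ := hne
      let ψ : ℕ → (Fin (2 * L + 1) → Fin n) := fun v => match φ v with
        | Sum.inl _ => g0
        | Sum.inr x => x.2
      have hψ : ∀ a b, R S a b → Sh (ψ a) (ψ b) ∨ Sh (ψ b) (ψ a) := by
        rintro a b ⟨ha, hb, hab⟩
        obtain ⟨x, hx⟩ := (mem_filter.mp ha).2
        obtain ⟨y, hy⟩ := (mem_filter.mp hb).2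
        have h1 := hφ a b hab
        rw [hx, hy] at h1
        simp only [ψ, hx, hy]
        exact h1.2
      exact no_odd m hm (by omega) (ψ a) (hW.map ψ hψ))
    apply h21
    refine ⟨fun v => match φ v with
      | Sum.inl a => a
      | Sum.inr _ => if c v then p else q, fun v w hvw => ?_⟩
    have h1 := hφ v w hvw
    obtain ⟨hv, hw⟩ := hV2 v w hvw
    rcases hφv : φ v with a | x
    · rcases hφw : φ w with b | y
      · rw [hφv, hφw] at h1
        simp only [hφv, hφw]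
        exact h1
      · rw [hφv, hφw] at h1
        exact absurd h1 (by simp [Mid])
    · rcases hφw : φ w with b | y
      · rw [hφv, hφw] at h1
        exact absurd h1 (by simp [Mid])
      · have h2 := hc v w ⟨mem_filter.mpr ⟨hv, x, hφv⟩, mem_filter.mpr ⟨hw, y, hφw⟩, hvw⟩
        simp only [hφv, hφw]
        cases hcv : c v <;> cases hcw : c w
        · rw [hcv, hcw] at h2; exact absurd rfl h2
        · simpa using hqp
        · simpa using hpq
        · rw [hcv, hcw] at h2; exact absurd rfl h2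

/-- density above `K_2` for finite digraphs on `ℕ` -/
theorem density (E1 E2 : ℕ → ℕ → Prop) (V1 V2 : Finset ℕ)
    (hV1 : ∀ a b, E1 a b → a ∈ V1 ∧ b ∈ V1) (hV2 : ∀ a b, E2 a b → a ∈ V2 ∧ b ∈ V2)
    (p q : ℕ) (hpq : E1 p q) (hqp : E1 q p) (h12 : Hom E1 E2) (h21 : ¬ Hom E2 E1) :
    ∃ (E3 : ℕ → ℕ → Prop) (V3 : Finset ℕ), (∀ a b, E3 a b → a ∈ V3 ∧ b ∈ V3) ∧
      Hom E1 E3 ∧ ¬ Hom E3 E1 ∧ Hom E3 E2 ∧ ¬ Hom E2 E3 := by
  classical
  obtain ⟨k, n, ⟨f1, hf1⟩, h2, ⟨f3, hf3⟩, h4⟩ :=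
    density_sum E1 E2 V1 V2 hV1 hV2 p q hpq hqp h12 h21
  let X := ℕ ⊕ (ℕ × (Fin k → Fin n))
  let enc : X → ℕ := Encodable.encode
  have henc : Function.Injective enc := Encodable.encode_injective
  let dec : ℕ → X := fun m => (Encodable.decode m).getD (Sum.inl 0)
  have hdec : ∀ x, dec (enc x) = x := by
    intro x
    simp only [dec, enc, Encodable.encodek, Option.getD_some]
  let E3 : ℕ → ℕ → Prop := fun a b => ∃ x y, Mid k n E1 E2 x y ∧ a = enc x ∧ b = enc y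
  let VX : Finset X := (V1.map ⟨Sum.inl, Sum.inl_injective⟩) ∪
    ((V2 ×ˢ (univ : Finset (Fin k → Fin n))).map ⟨Sum.inr, Sum.inr_injective⟩)
  refine ⟨E3, VX.image enc, ?_, ?_, ?_, ?_, ?_⟩
  · rintro a b ⟨x, y, hxy, rfl, rfl⟩
    have hx : x ∈ VX ∧ y ∈ VX := by
      rcases x with a | ⟨v, f⟩ <;> rcases y with b | ⟨w, g⟩
      · have := hV1 a b hxy
        simp only [VX, mem_union, mem_map, Function.Embedding.coeFn_mk]
        exact ⟨Or.inl ⟨a, this.1, rfl⟩, Or.inl ⟨b, this.2, rfl⟩⟩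
      · exact absurd hxy (by simp [Mid])
      · exact absurd hxy (by simp [Mid])
      · have := hV2 v w hxy.1
        simp only [VX, mem_union, mem_map, Function.Embedding.coeFn_mk, mem_product]
        exact ⟨Or.inr ⟨(v, f), ⟨this.1, mem_univ _⟩, rfl⟩,
          Or.inr ⟨(w, g), ⟨this.2, mem_univ _⟩, rfl⟩⟩
    exact ⟨mem_image_of_mem _ hx.1, mem_image_of_mem _ hx.2⟩
  · exact ⟨fun a => enc (f1 a), fun a b hab => ⟨_, _, hf1 a b hab, rfl, rfl⟩⟩
  · rintro ⟨h, hh⟩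
    exact h2 ⟨fun x => h (enc x), fun x y hxy => hh _ _ ⟨x, y, hxy, rfl, rfl⟩⟩
  · refine ⟨fun m => f3 (dec m), ?_⟩
    rintro a b ⟨x, y, hxy, rfl, rfl⟩
    simp only [hdec]
    exact hf3 x y hxy
  · rintro ⟨h, hh⟩
    apply h4
    refine ⟨fun a => dec (h a), fun a b hab => ?_⟩
    obtain ⟨x, y, hxy, hx, hy⟩ := hh a b hab
    simp only [hx, hy, hdec]
    exact hxy

end Pool.Agent.V11181.GF
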